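import Pool.Agent.H281R3.HT.Main

open CategoryTheory AlgebraicGeometry

universe u v w

namespace Pool.Agent.Results.MP_361a6f_ag.SupersingularProducts

open Pool.Agent.H914 Pool.Agent.H914.VarClass Pool.Agent.H914.VarClass.Obj
  Pool.Agent.H281R3.HT

/-- **The standard conjecture of Hodge type for all products of members of a family of polarized
varieties of supersingular type**: suppose that the transcendental cohomology of every member lies
in the middle degree, and that the external products of transcendental classes of any two members
are linear combinations of algebraic classes. Then the conjecture of Hodge type for the members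
and for the products of two members is equivalent to the conjectures of Hodge type and `D` for all
iterated products of members. -/
theorem result {k : Type u} [Field k] {𝒱 : VarClass k} {ops : CycleOps 𝒱}
    (W : WeilCohomology.{u, v} ops) {ι : Type w} (P : ι → Polarized 𝒱)
    (hD : ∀ j, (P j).X.IsCyc 1 (P j).D) (hHL : ∀ j, HardLefschetz W (P j).X (P j).D)
    (hT : ∀ j, transcendental W (P j).X ≤ W.gr (P j).X (P j).X.dim)
    (hE : ∀ i j, ExternallyAlgebraic W (P i).X (P j).X) :
    ((∀ j, HodgeType W (P j).X (P j).D) ∧
      ∀ i j, HodgeType W ((P i).prod ops (P j)).X ((P i).prod ops (P j)).D) ↔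
      ∀ Q, IsProduct ops P Q → HodgeType W Q.X Q.D ∧ HomEqNum W Q.X :=
  hodge_products_iff_pairs hD hHL hT hE

end Pool.Agent.Results.MP_361a6f_ag.SupersingularProducts
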